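import Pool.Agent.Lib_helper2.EFD.Defs
import Pool.Agent.Lib_helper44.EFD.CC

namespace Pool.Agent.EFD
open Pool.Agent.PTm Pool.Agent.EFX3

theorem run_acc (a : Fin 3) (K : Fin 3 → List Unit) (N : List Good) (acc : Part)
    (h : efx acc = true) : run a K N acc = acc :=
  run_acc_pr a K N acc h

theorem run_perm (a : Fin 3) (K : Fin 3 → List Unit) (N L : List Good) (acc : Part)
    (hN : N.Perm L) (h : (acc 0 ++ acc 1 ++ acc 2).Perm L) :
    (run a K N acc 0 ++ run a K N acc 1 ++ run a K N acc 2).Perm L :=
  run_perm_pr a K N L acc hN h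

/-- if some candidate is solved, the result is EFX -/
theorem run_spec (a : Fin 3) (K : Fin 3 → List Unit) (N : List Good) (acc : Part) (s r : ℕ)
    (hs : s ≤ N.length) (P : Part) (hP : P ∈ reps K (N.take s))
    (hsol : solved (cand a P (N.drop s) r)) : efx (run a K N acc) = true :=
  run_spec_pr a K N acc s r hs P hP hsol

end Pool.Agent.EFD
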