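import Pool.Agent.Lib_helper2.EFD.Defs
import Pool.Agent.Lib_helper99.EFD.CD

namespace Pool.Agent.EFD
open Pool.Agent.PTm Pool.Agent.EFX3

/-- greedy distribution of a sorted list to the bundles 0 and 1 (catch-up lemma) -/
theorem lpt2_spec (a : Fin 3) (P : Part) (T : List Good)
    (hT : T.Pairwise fun g h => h.2 a ≤ g.2 a)
    (hP : ∀ j : Fin 3, j ≠ 2 → ∀ g ∈ P j, ∀ h ∈ T, h.2 a ≤ g.2 a)
    (hs : (P 0 = [] ∧ P 1 = []) ∨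
      (val a (P 0) ≤ val a (P 1) + val a T ∧ val a (P 1) ≤ val a (P 0) + val a T))
    (M : ℕ) (hM : ∀ j : Fin 3, j ≠ 2 → ∀ g ∈ P j, g.2 a ≤ M) (hMT : ∀ g ∈ T, g.2 a ≤ M) :
    lpt2 a 2 P T 2 = P 2 ∧
    ok a (lpt2 a 2 P T 0) (lpt2 a 2 P T 1) = true ∧
    ok a (lpt2 a 2 P T 1) (lpt2 a 2 P T 0) = true ∧
    val a (lpt2 a 2 P T 0) ≤ val a (lpt2 a 2 P T 1) + M ∧
    val a (lpt2 a 2 P T 1) ≤ val a (lpt2 a 2 P T 0) + M ∧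
    ∃ T0 T1 : List Good, (T0 ++ T1).Perm T ∧ lpt2 a 2 P T 0 = T0 ++ P 0 ∧
      lpt2 a 2 P T 1 = T1 ++ P 1 :=
  lpt2_spec_pr a P T hT hP hs M hM hMT

theorem dump_spec (P : Part) (N : List Good) :
    dump P N 0 = P 0 ∧ dump P N 1 = P 1 ∧ dump P N 2 = N.reverse ++ P 2 :=
  dump_spec_pr P N

end Pool.Agent.EFD
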