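import Pool.Agent.Lib_helper2.EFD.W.MB
import Pool.Agent.Lib_helper38.EFD.MD

namespace Pool.Agent.EFD

/-- the margin lemma (by separation from `lb`) -/
theorem margin {ι : Type} [Fintype ι] (u : Fin 3 → ι → ℝ) (h0 : ∀ i g, 0 ≤ u i g)
    (h1 : ∀ i, ∑ g, u i g = 1) (d : ℝ) (hd0 : 0 < d)
    (hd : ∀ i j, i ≠ j → d ≤ ∑ g, |u i g - u j g|) :
    ∃ x : ι → Fin 3 → ℝ, (∀ g j, 0 ≤ x g j) ∧ (∀ g, ∑ j, x g j = 1) ∧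
      ∀ i j, i ≠ j → d / 96 ≤ ∑ g, u i g * (x g i - x g j) :=
  margin_pr u h0 h1 d hd0 hd

end Pool.Agent.EFD
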