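import Pool.Agent.Lib_helper2.EFD.W.MA
import Pool.Agent.Lib_helper2.EFD.W.MD
import Pool.Agent.Lib_helper89.EFD.ME

namespace Pool.Agent.EFD

/-- case 1: all three pairs are far from each other -/
theorem case1 {ι : Type} [Fintype ι] (u : Fin 3 → ι → ℝ) (h0 : ∀ i g, 0 ≤ u i g)
    (h1 : ∀ i, ∑ g, u i g = 1) (mu : ℝ) (hmu : ∀ i g, u i g ≤ mu) (hmu0 : 0 < mu)
    (hd : ∀ i j, i ≠ j → 1176 * mu ≤ ∑ g, |u i g - u j g|) :
    ∃ σ : ι → Fin 3, ∀ i j, i ≠ j →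
      (∑ g, if σ g = j then u i g else 0) + mu / 4 ≤ ∑ g, if σ g = i then u i g else 0 :=
  case1_pr u h0 h1 mu hmu hmu0 hd

end Pool.Agent.EFD
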