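import Mathlib
import Pool.Agent.Lib_helper78.EFD.MF

namespace Pool.Agent.EFD

/-- the segments: `A t`, `C t` = value of the last `n - t` goods for the agents `a`, `c` -/
theorem seg (n : ℕ) (A C : ℕ → ℝ) (mu : ℝ) (hmu0 : 0 < mu) (hmu : mu ≤ 1 / 15000)
    (hA0 : A 0 = 1) (hAn : A n = 0) (hA1 : ∀ t, t < n → A (t + 1) ≤ A t)
    (hA2 : ∀ t, t < n → A t ≤ A (t + 1) + mu) (hCn : C n = 0)
    (hC1 : ∀ t, t < n → C (t + 1) ≤ C t) :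
    ∃ s t : ℕ, s ≤ t ∧ t ≤ n ∧
      ((s = 0 ∧ 1 / 2 ≤ C t ∧ A t ≤ 1 / 6 + 10 * mu) ∨
       (9 * mu ≤ A s - A t ∧ A s - A t ≤ 10 * mu ∧ C s - C t < 30 * mu ∧ 3 * A t ≤ C t ∧
        C t < 1 / 2)) :=
  seg_pr n A C mu hmu0 hmu hA0 hAn hA1 hA2 hCn hC1

end Pool.Agent.EFD
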