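import Pool.Agent.Lib_helper2.EFD.W.MA
import Pool.Agent.Lib_helper27.EFD.MG

namespace Pool.Agent.EFD

/-- case 2 (B): the integral assignment of the goods of `U` -/
theorem caseB {ι : Type} [Fintype ι] [DecidableEq ι] (ua uc : ι → ℝ) (mu : ℝ)
    (ha0 : ∀ g, 0 ≤ ua g) (hc0 : ∀ g, 0 ≤ uc g) (ham : ∀ g, ua g ≤ mu) (hcm : ∀ g, uc g ≤ mu)
    (ha1 : ∑ g, ua g = 1) (hc1 : ∑ g, uc g = 1) (hmu0 : 0 < mu) (hmu : mu ≤ 1 / 15000)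
    (hd : 30000 * mu ≤ ∑ g, |ua g - uc g|) (U : Finset ι) (wa wc ta tc : ℝ)
    (hUa : ∑ g ∈ U, ua g = 1 - wa - ta) (hUc : ∑ g ∈ U, uc g = 1 - wc - tc) (hta0 : 0 ≤ ta)
    (hta : ta ≤ 10 * mu) (htc0 : 0 ≤ tc) (htc : tc ≤ 30 * mu) (hwa0 : 0 ≤ wa)
    (hw : 3 * wa ≤ wc) (hwc : wc ≤ 1 / 2) :
    ∃ σ : ι → Fin 3,
      (∑ g ∈ U, if σ g = 2 then ua g else 0) ≤ 1 / 3 - wa - 590 * mu ∧
      1 / 3 - wc + 14 * mu ≤ (∑ g ∈ U, if σ g = 2 then uc g else 0) ∧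
      |(∑ g ∈ U, if σ g = 0 then ua g else 0) - ∑ g ∈ U, if σ g = 1 then ua g else 0| ≤ 8 * mu ∧
      |(∑ g ∈ U, if σ g = 0 then uc g else 0) - ∑ g ∈ U, if σ g = 1 then uc g else 0| ≤
        8 * mu :=
  caseB_pr ua uc mu ha0 hc0 ham hcm ha1 hc1 hmu0 hmu hd U wa wc ta tc hUa hUc hta0 hta htc0 htc hwa0 hw hwc

end Pool.Agent.EFD
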