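import Pool.Agent.Lib_helper2.EFD.Defs
import Pool.Agent.Lib_helper13.EFD.CA

namespace Pool.Agent.EFD
open Pool.Agent.PTm Pool.Agent.EFX3

theorem hlv_eq (k : List Unit) (x : ℕ) : hlv k x = x / 2 ^ k.length :=
  hlv_eq_pr k x

theorem cnt_lt {B x : ℕ} (hB : 0 < B) : hlv (cnt B x) x < B :=
  cnt_lt_pr hB

theorem cnt_spec {B x : ℕ} (hB : 0 < B) : cnt B x = [] ∨ B / 2 * 2 ^ (cnt B x).length ≤ x :=
  cnt_spec_pr hB

theorem le_maxv {i : Fin 3} {L : List Good} {g : Good} (hg : g ∈ L) : g.2 i ≤ maxv i L :=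
  le_maxv_pr hg

/-- `maxv` is attained or `0` -/
theorem maxv_mem (i : Fin 3) (L : List Good) : maxv i L = 0 ∨ ∃ g ∈ L, g.2 i = maxv i L :=
  maxv_mem_pr i L

theorem B16_eq (L : List Good) : B16 L = 16 * L.length :=
  B16_eq_pr L

theorem wt_lt {L : List Good} {i : Fin 3} {g : Good} (hg : g ∈ L) :
    wt (KK L) i g < 16 * L.length :=
  wt_lt_pr hg

/-- bundles of the same weight have nearly the same value -/
theorem wt_err {L : List Good} {i : Fin 3} {X Y : List Good} (hX : ∀ g ∈ X, g ∈ L)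
    (hY : ∀ g ∈ Y, g ∈ L) (hXl : X.length ≤ L.length) (hYl : Y.length ≤ L.length)
    (h : wsum (KK L) i X = wsum (KK L) i Y) : 8 * val i X ≤ 8 * val i Y + maxv i L :=
  wt_err_pr hX hY hXl hYl h

end Pool.Agent.EFD
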