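import Pool.Agent.Lib_helper2.EFD.Defs
import Pool.Agent.Lib_helper33.EFD.CB

namespace Pool.Agent.EFD
open Pool.Agent.PTm Pool.Agent.EFX3

/-- every triple of `reps K N` is a partition of `N` -/
theorem reps_perm {K : Fin 3 → List Unit} {N : List Good} {P : Part} (h : P ∈ reps K N) :
    (P 0 ++ P 1 ++ P 2).Perm N :=
  reps_perm_pr h

/-- every assignment of the goods of `N` has a representative with the same weights -/
theorem reps_complete (K : Fin 3 → List Unit) (N : List Good) (σ : Good → Fin 3) :
    ∃ P ∈ reps K N, ∀ i j, wsum K i (P j) = wsum K i (N.filter fun g => decide (σ g = j)) :=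
  reps_complete_pr K N σ

/-- the number of representatives is polynomial -/
theorem reps_length (K : Fin 3 → List Unit) (N : List Good) (B : ℕ)
    (hB : ∀ g ∈ N, ∀ i, wt K i g ≤ B) : (reps K N).length ≤ (N.length * B + 1) ^ 9 :=
  reps_length_pr K N B hB

end Pool.Agent.EFD
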