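import Mathlib
import Pool.Agent.Lib_helper89.EFD.MA

namespace Pool.Agent.EFD

/-- rounding of a fractional assignment, error at most (number of functionals) x (oscillation) -/
theorem rounding {ι : Type} [Fintype ι] (k : ℕ) (F : Fin k → ι → Fin 3 → ℝ) (B : Fin k → ℝ)
    (hB0 : ∀ r, 0 ≤ B r) (hB : ∀ r g j j', F r g j - F r g j' ≤ B r) (x : ι → Fin 3 → ℝ) (hx0 : ∀ g j, 0 ≤ x g j)
    (hx1 : ∀ g, ∑ j, x g j = 1) :
    ∃ σ : ι → Fin 3, ∀ r, |∑ g, F r g (σ g) - ∑ g, ∑ j, x g j * F r g j| ≤ k * B r :=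
  rounding_pr k F B hB0 hB x hx0 hx1

end Pool.Agent.EFD
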