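import Mathlib
import Pool.Agent.Lib_helper52.EFD.MB

namespace Pool.Agent.EFD

/-- paper (LB), with the large multiplier named: `a = u i - u j`, `b = u j - u k`, `c = u k - u i` -/
theorem lb_core {ι : Type} [Fintype ι] (u : Fin 3 → ι → ℝ) (h0 : ∀ i g, 0 ≤ u i g)
    (h1 : ∀ i, ∑ g, u i g = 1) (d : ℝ) (hd0 : 0 < d)
    (hd : ∀ i j, i ≠ j → d ≤ ∑ g, |u i g - u j g|) (l : Fin 3 → Fin 3 → ℝ)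
    (hl : ∀ i j, 0 ≤ l i j) (hl0 : ∀ i, l i i = 0) (hl1 : ∑ i, ∑ j, l i j = 1)
    (i j k : Fin 3) (hij : i ≠ j) (hjk : j ≠ k) (hik : i ≠ k) (h6 : 1 / 6 ≤ l j i) :
    ∃ p, d / 48 ≤ ∑ g, |wv u l p g| :=
  lb_core_pr u h0 h1 d hd0 hd l hl hl0 hl1 i j k hij hjk hik h6

theorem lb {ι : Type} [Fintype ι] (u : Fin 3 → ι → ℝ) (h0 : ∀ i g, 0 ≤ u i g)
    (h1 : ∀ i, ∑ g, u i g = 1) (d : ℝ) (hd0 : 0 < d)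
    (hd : ∀ i j, i ≠ j → d ≤ ∑ g, |u i g - u j g|) (l : Fin 3 → Fin 3 → ℝ)
    (hl : ∀ i j, 0 ≤ l i j) (hl0 : ∀ i, l i i = 0) (hl1 : ∑ i, ∑ j, l i j = 1) :
    ∃ σ : ι → Fin 3, d / 96 ≤ ∑ g, wv u l (σ g) g :=
  lb_pr u h0 h1 d hd0 hd l hl hl0 hl1

end Pool.Agent.EFD
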