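import Pool.Agent.Lib_helper2.EFD.Defs
import Pool.Agent.Lib_helper33.EFD.PA

namespace Pool.Agent.EFD
open Pool.Agent.PTm Pool.Agent.EFX3

variable {γ : Type} [ToD γ]

theorem pt_hlv {k : γ → List Unit} {x : γ → ℕ} (hk : PTime k) (hx : PTime x) :
    PTime (fun c => hlv (k c) (x c)) :=
  pt_hlv_pr hk hx

theorem pt_wsum (i : Fin 3) {K : γ → Fin 3 → List Unit} {X : γ → List Good} (hK : PTime K)
    (hX : PTime X) : PTime (fun c => wsum (K c) i (X c)) :=
  pt_wsum_pr i hK hX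

theorem pt_same {K : γ → Fin 3 → List Unit} {P Q : γ → Part} (hK : PTime K) (hP : PTime P)
    (hQ : PTime Q) : PTime (fun c => same (K c) (P c) (Q c)) :=
  pt_same_pr hK hP hQ

end Pool.Agent.EFD
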