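import Pool.Agent.Lib_helper2.EFD.W.PA
import Pool.Agent.Lib_helper89.EFD.PB

namespace Pool.Agent.EFD
open Pool.Agent.PTm Pool.Agent.EFX3

variable {γ : Type} [ToD γ]

theorem sz_addNew (K : Fin 3 → List Unit) (L : List Part) (P : Part) :
    sz (addNew K L P) ≤ sz L + sz P + 1 :=
  sz_addNew_pr K L P

theorem pt_addNew {K : γ → Fin 3 → List Unit} {L : γ → List Part} {P : γ → Part} (hK : PTime K)
    (hL : PTime L) (hP : PTime P) : PTime (fun c => addNew (K c) (L c) (P c)) :=
  pt_addNew_pr hK hL hP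

theorem pt_expand {K : γ → Fin 3 → List Unit} {g : γ → Good} {L : γ → List Part} (hK : PTime K)
    (hg : PTime g) (hL : PTime L) : PTime (fun c => expand (K c) (g c) (L c)) :=
  pt_expand_pr hK hg hL

end Pool.Agent.EFD
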