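import Pool.Agent.Lib_helper2.EFD.Defs
import Pool.Agent.Lib_helper99.EFD.PC

namespace Pool.Agent.EFD
open Pool.Agent.PTm Pool.Agent.EFX3

variable {γ : Type} [ToD γ]

theorem sz_dump (P : Part) (N : List Good) : sz (dump P N) + 1 = sz P + sz N :=
  sz_dump_pr P N

theorem pt_dump {P : γ → Part} {N : γ → List Good} (hP : PTime P) (hN : PTime N) :
    PTime (fun c => dump (P c) (N c)) :=
  pt_dump_pr hP hN

theorem sz_tryP (a : Fin 3) (N : List Good) (P acc : Part) :
    sz (tryP a N P acc) ≤ max (sz acc) (sz P + sz N) :=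
  sz_tryP_pr a N P acc

theorem pt_tryP (a : Fin 3) {N : γ → List Good} {P acc : γ → Part} (hN : PTime N) (hP : PTime P)
    (hacc : PTime acc) : PTime (fun c => tryP a (N c) (P c) (acc c)) :=
  pt_tryP_pr a hN hP hacc

end Pool.Agent.EFD
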