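import Pool.Agent.Lib_helper2.EFD.W.PB
import Pool.Agent.Lib_helper2.EFD.W.PC
import Pool.Agent.Lib_helper99.EFD.PD

namespace Pool.Agent.EFD
open Pool.Agent.PTm Pool.Agent.EFX3

variable {γ : Type} [ToD γ]

theorem pt_stage (a : Fin 3) {K : γ → Fin 3 → List Unit}
    {s : γ → List Good × List Part × Part} (hK : PTime K) (hs : PTime s) :
    PTime (fun c => stage a (K c) (s c)) :=
  pt_stage_pr a hK hs

end Pool.Agent.EFD
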