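import Pool.Agent.Lib_helper2.EFD.Defs
import Pool.Agent.Lib_helper78.EFD.PE

namespace Pool.Agent.EFD
open Pool.Agent.PTm Pool.Agent.EFX3

variable {γ : Type} [ToD γ]

theorem pt_cnt {B x : γ → ℕ} (hB : PTime B) (hx : PTime x) :
    PTime (fun c => cnt (B c) (x c)) :=
  pt_cnt_pr hB hx

theorem pt_maxv (i : Fin 3) {L : γ → List Good} (hL : PTime L) :
    PTime (fun c => maxv i (L c)) :=
  pt_maxv_pr i hL

theorem pt_B16 {L : γ → List Good} (hL : PTime L) : PTime (fun c => B16 (L c)) :=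
  pt_B16_pr hL

theorem pt_KK {L : γ → List Good} (hL : PTime L) : PTime (fun c => KK (L c)) :=
  pt_KK_pr hL

end Pool.Agent.EFD
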