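import Pool.Agent.Lib_helper2.EFD.W.PD
import Pool.Agent.Lib_helper2.EFD.W.PE
import Pool.Agent.Lib_helper2.EFD.W.CA
import Pool.Agent.Lib_helper2.EFD.W.CB
import Pool.Agent.Lib_helper37.EFD.PF

namespace Pool.Agent.EFD
open Pool.Agent.PTm Pool.Agent.EFX3

theorem pt_run (a : Fin 3) {acc : List (Fin 3 → ℕ) → Part} (hacc : PTime acc) :
    PTime (fun I => run a (KK (goods I)) (srt a a (goods I)) (acc I)) :=
  pt_run_pr a hacc

theorem alg2_ptime : PTime alg2 :=
  alg2_ptime_pr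

end Pool.Agent.EFD
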